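import Pool.Agent.K4H60.BZ.Main

/-!
# Bohr sets in `2A - 2A` and the additive energy of `A`

Let `A ⊆ ℤ/N` be nonempty of density `α ≤ 1/2` and let `E(A)` be its additive energy, the number of the quadruples
`(a, b, c, d) ∈ A⁴` with `a + b = c + d`.

If `|A|³ ≤ K E(A)` then `2A - 2A` contains a Bohr set `B(Γ, ε)` with `|Γ| ≤ C (log (1/α) + (log K)⁴)` and
`ε ≥ c / log (1/α)`, where `C, c > 0` are absolute. The hypothesis holds for `K = |A + A| / |A|`, and for every set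
with `K = 1/α`; so every `A` has `|Γ| ≤ C' (log (1/α))⁴` together with the radius of Q1.

The theorem is stated for the Bohr sets in `2A - 2A` given by a subset `B` of `A` in the place of `A`. Hence the
conclusion of Q1 holds for all the sets `A` containing a set `B` with `|B| ≥ α^M N` and
`E(B) ≥ exp (- (M log (1/α)) ^ (1/4)) |B|³` (in particular if `|B + B| ≤ exp ((M log (1/α)) ^ (1/4)) |B|`), with
constants depending on `M` only.

Proof. By the Balog-Szemerédi-Gowers theorem (starting file `Pool/Agent/H217R3/AK/Bsg.lean`) we may assume that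
`|A - A| ≤ K |A|`. Sampling (Croot and Sisask) gives `T ⊆ A` with `log (|A|/|T|) ≤ C (1 + log K)⁴` such that for
`m ≥ 3 + log K` and `μ` the uniform measure of `T`, `h(x) = P(a - b + t₁ + … + t_m - t'₁ - … - t'_m + x ∈ A - A)`
satisfies `h(0) ≥ 3/4`. By Chang's theorem the large spectrum of `T` is in the span (coefficients `0, ±1`) of a set
`Λ` of at most `8 log (N/|T|)` characters. The usual argument now loses a power of `K` in the radius. We avoid this
with a de la Vallée Poussin kernel: if `Q_t` is the set of the combinations of `Λ` with coefficients at most `t`, then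
`|Q_(t+1)| ≤ 2 |Q_t|` for some `t ≤ 8 (|Λ| + 1)²`, the kernel `V = 1̂_(Q_(t+1)) conj(1̂_(Q_t)) / (N |Q_t|)` has Fourier
coefficients `1` on the large spectrum, and by Parseval it moves by at most `3 max |ψ(x) - 1|` (`ψ ∈ Q_(t+1)`) in `L¹`
under translation by `x`. So `h(x) > 1/2` for `x` in a Bohr set of `Λ` of radius `c / |Λ|³`. Finally the frequencies
`R^j λ` (`j < 12`) with the radius `1/(4R)`, `R ≈ 10⁴ log (1/α)`, replace the radius `c / |Λ|³`.
-/

set_option autoImplicit false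

namespace Pool.Agent.Results.MP_169871_nt.AdditiveEnergy

/-- The Bohr set `B(Γ, ε) = {x ∈ ℤ/N : ‖γ x / N‖ ≤ ε for all γ ∈ Γ}`; the norm is the distance to the nearest
integer. -/
def bohr {N : ℕ} (Γ : Finset (ZMod N)) (ε : ℝ) : Set (ZMod N) :=
  {x | ∀ γ ∈ Γ, |((γ * x).val : ℝ) / (N : ℝ) - ((round (((γ * x).val : ℝ) / (N : ℝ)) : ℤ) : ℝ)| ≤ ε}

/-- The set `2A - 2A`. -/
def twoAMinusTwoA {N : ℕ} (A : Finset (ZMod N)) : Set (ZMod N) :=
  {x | ∃ a₁ ∈ A, ∃ a₂ ∈ A, ∃ a₃ ∈ A, ∃ a₄ ∈ A, x = a₁ + a₂ - a₃ - a₄}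

/-- The additive energy: the number of the quadruples `(a, b, c, d)` of elements of `A` with `a + b = c + d`. -/
def energy {N : ℕ} (A : Finset (ZMod N)) : ℕ :=
  ((A ×ˢ A ×ˢ A ×ˢ A).filter fun p => p.1 + p.2.1 = p.2.2.1 + p.2.2.2).card

/-- The set `A + A`. -/
def sumset {N : ℕ} (A : Finset (ZMod N)) : Finset (ZMod N) :=
  (A ×ˢ A).image fun p => p.1 + p.2

theorem energy_eq {N : ℕ} (A : Finset (ZMod N)) : energy A = A.addEnergy A := by
  rw [Finset.addEnergy_eq_card_filter]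
  unfold energy
  refine Finset.card_nbij' (fun p => ((p.1, p.2.1), (p.2.2.1, p.2.2.2))) (fun p => (p.1.1, p.1.2, p.2.1, p.2.2))
    ?_ ?_ ?_ ?_
  · intro p hp
    simp only [Finset.coe_filter, Finset.mem_product, Set.mem_ofPred_eq] at hp ⊢
    exact ⟨⟨⟨hp.1.1, hp.1.2.1⟩, hp.1.2.2.1, hp.1.2.2.2⟩, hp.2⟩
  · intro p hp
    simp only [Finset.coe_filter, Finset.mem_product, Set.mem_ofPred_eq] at hp ⊢
    exact ⟨⟨hp.1.1.1, hp.1.1.2, hp.1.2.1, hp.1.2.2⟩, hp.2⟩
  · intro p _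
    rfl
  · intro p _
    rfl

/-- The bound in terms of the energy. -/
theorem part_one : ∃ C : ℝ, 0 < C ∧ ∃ c : ℝ, 0 < c ∧
    ∀ N : ℕ, 0 < N → ∀ A : Finset (ZMod N), A.Nonempty → (A.card : ℝ) / (N : ℝ) ≤ 1 / 2 →
    ∀ K : ℝ, (A.card : ℝ) ^ 3 ≤ K * energy A →
      ∃ Γ : Finset (ZMod N), ∃ ε : ℝ, 0 < ε ∧
        (Γ.card : ℝ) ≤ C * (Real.log ((N : ℝ) / (A.card : ℝ)) + Real.log K ^ 4) ∧
        c / Real.log ((N : ℝ) / (A.card : ℝ)) ≤ ε ∧ bohr Γ ε ⊆ twoAMinusTwoA A := by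
  obtain ⟨C, hC, c, hc, h⟩ := Pool.Agent.K4H60.BZ.main
  refine ⟨C, hC, c, hc, ?_⟩
  intro N hN A hA hα K hK
  rw [energy_eq] at hK
  obtain ⟨Γ, ε, h1, h2, h3, h4⟩ := h N hN A hA hα K hK
  exact ⟨Γ, ε, h1, h2, h3, fun x hx => h4 x hx⟩

/-- The bound for the subsets `B` of `A`. -/
theorem part_two : ∃ C : ℝ, 0 < C ∧ ∃ c : ℝ, 0 < c ∧
    ∀ N : ℕ, 0 < N → ∀ A : Finset (ZMod N), (A.card : ℝ) / (N : ℝ) ≤ 1 / 2 →
    ∀ B : Finset (ZMod N), B ⊆ A → B.Nonempty → ∀ K : ℝ, (B.card : ℝ) ^ 3 ≤ K * energy B →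
      ∃ Γ : Finset (ZMod N), ∃ ε : ℝ, 0 < ε ∧
        (Γ.card : ℝ) ≤ C * (Real.log ((N : ℝ) / (B.card : ℝ)) + Real.log K ^ 4) ∧
        c / Real.log ((N : ℝ) / (B.card : ℝ)) ≤ ε ∧ bohr Γ ε ⊆ twoAMinusTwoA A := by
  obtain ⟨C, hC, c, hc, h⟩ := part_one
  refine ⟨C, hC, c, hc, ?_⟩
  intro N hN A hα B hBA hB K hK
  have hNpos : (0 : ℝ) < N := by exact_mod_cast hN
  have hBAc : (B.card : ℝ) ≤ A.card := by exact_mod_cast Finset.card_le_card hBA
  have hB2 : (B.card : ℝ) / N ≤ 1 / 2 := (div_le_div_of_nonneg_right hBAc hNpos.le).trans hα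
  obtain ⟨Γ, ε, h1, h2, h3, h4⟩ := h N hN B hB hB2 K hK
  refine ⟨Γ, ε, h1, h2, h3, ?_⟩
  intro x hx
  obtain ⟨a₁, h₁, a₂, h₂, a₃, h₃, a₄, h₄, hxe⟩ := h4 hx
  exact ⟨a₁, hBA h₁, a₂, hBA h₂, a₃, hBA h₃, a₄, hBA h₄, hxe⟩

open scoped Pointwise in
theorem card_sq_le {N : ℕ} (B : Finset (ZMod N)) :
    B.card ^ 2 * B.card ^ 2 ≤ (sumset B).card * energy B := by
  have h := Finset.le_card_add_mul_addEnergy B B
  rw [← energy_eq] at h
  have e : sumset B = B + B := by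
    ext x
    simp only [sumset, Finset.mem_image, Finset.mem_product, Finset.mem_add, Prod.exists]
    constructor
    · rintro ⟨a, b, ⟨h1, h2⟩, h3⟩
      exact ⟨a, h1, b, h2, h3⟩
    · rintro ⟨a, h1, b, h2, h3⟩
      exact ⟨a, b, ⟨h1, h2⟩, h3⟩
  rw [e]
  exact h

/-- Cauchy-Schwarz: `|B|⁴ ≤ |B + B| E(B)`. -/
theorem card_pow_le {N : ℕ} (B : Finset (ZMod N)) :
    (B.card : ℝ) ^ 4 ≤ ((sumset B).card : ℝ) * energy B := by
  have h := card_sq_le B
  have h2 : B.card ^ 4 ≤ (sumset B).card * energy B := by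
    calc B.card ^ 4 = B.card ^ 2 * B.card ^ 2 := by ring
      _ ≤ _ := h
  exact_mod_cast h2

/-- The passage from `|B + B| ≤ K |B|` to `|B|³ ≤ K E(B)`. -/
theorem cube_le_of_sum {N : ℕ} {B : Finset (ZMod N)} (hB : B.Nonempty) {K : ℝ}
    (h : ((sumset B).card : ℝ) ≤ K * B.card) : (B.card : ℝ) ^ 3 ≤ K * energy B := by
  have hb : (0 : ℝ) < B.card := by exact_mod_cast hB.card_pos
  have h1 := card_pow_le B
  have hE : (0 : ℝ) ≤ energy B := Nat.cast_nonneg _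
  have h2 : (B.card : ℝ) * (B.card : ℝ) ^ 3 ≤ B.card * (K * energy B) := by
    calc (B.card : ℝ) * (B.card : ℝ) ^ 3 = (B.card : ℝ) ^ 4 := by ring
      _ ≤ ((sumset B).card : ℝ) * energy B := h1
      _ ≤ K * B.card * energy B := mul_le_mul_of_nonneg_right h hE
      _ = B.card * (K * energy B) := by ring
  exact le_of_mul_le_mul_left h2 hb

/-- (1) There are absolute constants `C, c > 0` such that for every `A ⊆ ℤ/N` of density at most `1/2` and every
nonempty `B ⊆ A`, if `|B|³ ≤ K E(B)` then `2A - 2A` contains a Bohr set with at most `C (log (N/|B|) + (log K)⁴)`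
frequencies and radius at least `c / log (N/|B|)`.

(2) For every `M > 0` there are `C, c > 0` such that the conclusion of Q1 holds with these constants for every `A` of
density `α ≤ 1/2` which contains a nonempty set `B` with `|B| ≥ α^M N` and `E(B) ≥ exp (- (M log (1/α))^(1/4)) |B|³` or
`|B + B| ≤ exp ((M log (1/α))^(1/4)) |B|`.

(3) There are absolute constants `C, c > 0` such that for every nonempty `A` of density `α ≤ 1/2`, `2A - 2A` contains
a Bohr set with at most `C (log (1/α))⁴` frequencies and radius at least `c / log (1/α)`. -/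
theorem result :
    (∃ C : ℝ, 0 < C ∧ ∃ c : ℝ, 0 < c ∧
      ∀ N : ℕ, 0 < N → ∀ A : Finset (ZMod N), (A.card : ℝ) / (N : ℝ) ≤ 1 / 2 →
      ∀ B : Finset (ZMod N), B ⊆ A → B.Nonempty → ∀ K : ℝ, (B.card : ℝ) ^ 3 ≤ K * energy B →
        ∃ Γ : Finset (ZMod N), ∃ ε : ℝ, 0 < ε ∧
          (Γ.card : ℝ) ≤ C * (Real.log ((N : ℝ) / (B.card : ℝ)) + Real.log K ^ 4) ∧
          c / Real.log ((N : ℝ) / (B.card : ℝ)) ≤ ε ∧ bohr Γ ε ⊆ twoAMinusTwoA A) ∧
    (∀ M : ℝ, 0 < M → ∃ C : ℝ, 0 < C ∧ ∃ c : ℝ, 0 < c ∧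
      ∀ N : ℕ, 0 < N → ∀ A : Finset (ZMod N), (A.card : ℝ) / (N : ℝ) ≤ 1 / 2 →
      ∀ B : Finset (ZMod N), B ⊆ A → B.Nonempty →
        ((A.card : ℝ) / (N : ℝ)) ^ M * (N : ℝ) ≤ B.card →
        (Real.exp (-(M * Real.log ((N : ℝ) / (A.card : ℝ))) ^ (1 / 4 : ℝ)) * (B.card : ℝ) ^ 3 ≤ energy B ∨
          ((sumset B).card : ℝ) ≤ Real.exp ((M * Real.log ((N : ℝ) / (A.card : ℝ))) ^ (1 / 4 : ℝ)) * B.card) →
        ∃ Γ : Finset (ZMod N), ∃ ε : ℝ, 0 < ε ∧
          (Γ.card : ℝ) ≤ C * Real.log ((N : ℝ) / (A.card : ℝ)) ∧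
          c / Real.log ((N : ℝ) / (A.card : ℝ)) ≤ ε ∧ bohr Γ ε ⊆ twoAMinusTwoA A) ∧
    (∃ C : ℝ, 0 < C ∧ ∃ c : ℝ, 0 < c ∧
      ∀ N : ℕ, 0 < N → ∀ A : Finset (ZMod N), A.Nonempty → (A.card : ℝ) / (N : ℝ) ≤ 1 / 2 →
        ∃ Γ : Finset (ZMod N), ∃ ε : ℝ, 0 < ε ∧
          (Γ.card : ℝ) ≤ C * Real.log ((N : ℝ) / (A.card : ℝ)) ^ 4 ∧
          c / Real.log ((N : ℝ) / (A.card : ℝ)) ≤ ε ∧ bohr Γ ε ⊆ twoAMinusTwoA A) := by
  obtain ⟨C, hC, c, hc, h⟩ := part_two
  -- the logarithm of the reciprocal of a density at most `1/2`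
  have hlog : ∀ N : ℕ, 0 < N → ∀ B : Finset (ZMod N), B.Nonempty → (B.card : ℝ) / (N : ℝ) ≤ 1 / 2 →
      1 / 2 ≤ Real.log ((N : ℝ) / (B.card : ℝ)) := by
    intro N hN B hB h2
    have hNpos : (0 : ℝ) < N := by exact_mod_cast hN
    have hb : (0 : ℝ) < B.card := by exact_mod_cast hB.card_pos
    have h3 : (2 : ℝ) ≤ (N : ℝ) / B.card := by
      rw [div_le_iff₀ hNpos] at h2
      rw [le_div_iff₀ hb]
      linarith
    have h4 := Real.log_le_log (by norm_num) h3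
    have h5 := Real.log_two_gt_d9
    linarith
  refine ⟨⟨C, hC, c, hc, h⟩, ?_, ?_⟩
  · intro M hM
    refine ⟨2 * C * M, by positivity, c / M, by positivity, ?_⟩
    intro N hN A hα B hBA hB hBM hor
    have hNpos : (0 : ℝ) < N := by exact_mod_cast hN
    have hA : A.Nonempty := hB.mono hBA
    have ha : (0 : ℝ) < A.card := by exact_mod_cast hA.card_pos
    have hb : (0 : ℝ) < B.card := by exact_mod_cast hB.card_pos
    have hBAc : (B.card : ℝ) ≤ A.card := by exact_mod_cast Finset.card_le_card hBA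
    have hB2 : (B.card : ℝ) / N ≤ 1 / 2 := (div_le_div_of_nonneg_right hBAc hNpos.le).trans hα
    have hLA := hlog N hN A hA hα
    have hLB := hlog N hN B hB hB2
    set L := Real.log ((N : ℝ) / (A.card : ℝ)) with hL
    have hML : 0 < M * L := mul_pos hM (by linarith)
    have hK : (B.card : ℝ) ^ 3 ≤ Real.exp ((M * L) ^ (1 / 4 : ℝ)) * energy B := by
      rcases hor with h1 | h1
      · have h2 := mul_le_mul_of_nonneg_left h1 (Real.exp_pos ((M * L) ^ (1 / 4 : ℝ))).le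
        rw [← mul_assoc, ← Real.exp_add, add_neg_cancel, Real.exp_zero, one_mul] at h2
        exact h2
      · exact cube_le_of_sum hB h1
    obtain ⟨Γ, ε, h1, h2, h3, h4⟩ := h N hN A hα B hBA hB _ hK
    have hpow : ((M * L) ^ (1 / 4 : ℝ)) ^ 4 = M * L := by
      rw [← Real.rpow_natCast, ← Real.rpow_mul hML.le]
      norm_num
    rw [Real.log_exp, hpow] at h2
    have hlB : Real.log ((N : ℝ) / B.card) ≤ M * L := by
      have hd : 0 < (A.card : ℝ) / N := by positivity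
      have h5 : (N : ℝ) / B.card ≤ ((A.card : ℝ) / N) ^ (-M) := by
        rw [Real.rpow_neg hd.le, div_le_iff₀ hb]
        have h6 : 0 < ((A.card : ℝ) / N) ^ M := Real.rpow_pos_of_pos hd M
        rw [inv_mul_eq_div, le_div_iff₀ h6]
        linarith
      have h7 := Real.log_le_log (by positivity) h5
      rw [Real.log_rpow hd] at h7
      have h8 : Real.log ((A.card : ℝ) / N) = -L := by
        rw [hL, ← Real.log_inv, inv_div]
      rw [h8] at h7
      linarith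
    refine ⟨Γ, ε, h1, ?_, ?_, h4⟩
    · calc (Γ.card : ℝ) ≤ C * (Real.log ((N : ℝ) / B.card) + M * L) := h2
        _ ≤ C * (M * L + M * L) := by gcongr
        _ = 2 * C * M * L := by ring
    · refine le_trans ?_ h3
      rw [div_div]
      exact div_le_div_of_nonneg_left hc.le (by linarith) hlB
  · refine ⟨9 * C, by positivity, c, hc, ?_⟩
    intro N hN A hA hα
    have hNpos : (0 : ℝ) < N := by exact_mod_cast hN
    have : NeZero N := ⟨hN.ne'⟩
    have ha : (0 : ℝ) < A.card := by exact_mod_cast hA.card_pos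
    have hL := hlog N hN A hA hα
    have hK : (A.card : ℝ) ^ 3 ≤ (N : ℝ) / A.card * energy A := by
      apply cube_le_of_sum hA
      rw [div_mul_cancel₀ _ ha.ne']
      have h5 : (sumset A).card ≤ N := by
        calc (sumset A).card ≤ Fintype.card (ZMod N) := Finset.card_le_univ _
          _ = N := ZMod.card N
      exact_mod_cast h5
    obtain ⟨Γ, ε, h1, h2, h3, h4⟩ := h N hN A hα A (Finset.Subset.refl A) hA _ hK
    refine ⟨Γ, ε, h1, ?_, h3, h4⟩
    set L := Real.log ((N : ℝ) / (A.card : ℝ)) with hLd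
    have h6 : (1 / 2 : ℝ) ^ 3 ≤ L ^ 3 := by gcongr
    have h7 : L ≤ 8 * L ^ 4 := by nlinarith
    calc (Γ.card : ℝ) ≤ C * (L + L ^ 4) := h2
      _ ≤ C * (8 * L ^ 4 + L ^ 4) := by gcongr
      _ = 9 * C * L ^ 4 := by ring

end Pool.Agent.Results.MP_169871_nt.AdditiveEnergy
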