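import Pool.Agent.K4H75.BP.ZN

/-!
# Arbitrary progressions contain Bohr sets, and Q1 when `2A - 2A` contains one

A coset progression `H + {n_1 a_1 + … + n_d a_d : |n_i| ≤ L_i}` of density `β` in a cyclic group, proper or not,
contains for every `R ≥ d + 4` a Bohr set with at most `36 d + 80 + 4 log (1/β) / log R` frequencies and radius
`1 / (8 R)`. The same holds in every finite abelian group if the `a_i` generate the group. Consequently the conclusion
of Q1 holds for `A` as soon as `2A - 2A` contains a coset progression, proper or not, of dimension `O(log (1/α))` and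
density `exp (- O(log (1/α) log log (1/α)))`.

Proof. (a) Transference: the push-forward of a product of binomial distributions has the Fourier transform
`∏ ((1 + Re χ(a_i)) / 2)^(2 k_i) ≥ 0`; doubling the variance changes the kernel by a factor at most two in one
direction and exponentially little in the other one, therefore the progression contains every point at which the
characters with `‖χ(a_i)‖ ≤ 3 (d + 3) / L_i` for all `i` have large real part. (b) The number of these characters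
is controlled by Parseval's identity. (c) Their angles at the `a_i` are vectors of a lattice; a basis of maximal
determinant and few more vectors control all of them.
-/

set_option autoImplicit false

namespace Pool.Agent.Results.MP_169871_nt.ArbitraryProgressions

open Pool.Agent.K4H75.BP

/-- The Bohr set `B(Γ, ε) = {x ∈ ℤ/N : ‖γ x / N‖ ≤ ε for all γ ∈ Γ}`; the norm is the distance to the nearest
integer. -/
def bohr {N : ℕ} (Γ : Finset (ZMod N)) (ε : ℝ) : Set (ZMod N) :=
  {x | ∀ γ ∈ Γ, |((γ * x).val : ℝ) / (N : ℝ) - ((round (((γ * x).val : ℝ) / (N : ℝ)) : ℤ) : ℝ)| ≤ ε}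

/-- The coset progression `H + {n_1 a_1 + … + n_d a_d : |n_i| ≤ L_i}`; nothing is assumed about its sums. -/
def cosetProg {N d : ℕ} (H : AddSubgroup (ZMod N)) (a : Fin d → ZMod N) (L : Fin d → ℕ) : Set (ZMod N) :=
  {x | ∃ h ∈ H, ∃ n : Fin d → ℤ, (∀ i, |n i| ≤ L i) ∧ x = h + ∑ i, (n i : ZMod N) * a i}

/-- The set `2A - 2A`. -/
def twoAMinusTwoA {N : ℕ} (A : Finset (ZMod N)) : Set (ZMod N) :=
  {x | ∃ a₁ ∈ A, ∃ a₂ ∈ A, ∃ a₃ ∈ A, ∃ a₄ ∈ A, x = a₁ + a₂ - a₃ - a₄}

/-- The Bohr set of a finite set of characters of an abelian group: all `x` such that the argument of `χ(x)`,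
divided by `2π`, is at most `ε` in absolute value for all `χ ∈ Γ`. -/
def bohrG {G : Type} [AddCommGroup G] (Γ : Finset (AddChar G ℂ)) (ε : ℝ) : Set G :=
  {x | ∀ χ ∈ Γ, |Complex.arg (χ x)| / (2 * Real.pi) ≤ ε}

/-- The progression `{n_1 a_1 + … + n_d a_d : |n_i| ≤ L_i}` in an abelian group. -/
def progG {G : Type} [AddCommGroup G] {d : ℕ} (a : Fin d → G) (L : Fin d → ℕ) : Set G :=
  {x | ∃ n : Fin d → ℤ, (∀ i, |n i| ≤ L i) ∧ x = ∑ i, n i • a i}

/-- Progressions in finite abelian groups. -/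
theorem part_one (G : Type) [AddCommGroup G] [Finite G] (d : ℕ) (a : Fin d → G) (L : Fin d → ℕ)
    (hgen : AddSubgroup.closure (Set.range a) = ⊤) (R : ℝ) (hR : (d : ℝ) + 2 ≤ R) :
    ∃ Γ : Finset (AddChar G ℂ),
      (Γ.card : ℝ) ≤ 36 * d + 8 + 4 * (Real.log ((Nat.card G : ℝ) / ((progG a L).ncard : ℝ)) / Real.log R) ∧
      bohrG Γ (1 / (8 * R)) ⊆ progG a L := by
  classical
  haveI : Fintype G := Fintype.ofFinite G
  have hPP : progG a L = (PP a L : Set G) := by
    ext x
    rw [Finset.mem_coe, mem_PP]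
    constructor
    · rintro ⟨n, hn, rfl⟩; exact ⟨n, hn, rfl⟩
    · rintro ⟨n, hn, rfl⟩; exact ⟨n, hn, rfl⟩
  have hgen' : ∀ x : G, ∃ n : Fin d → ℤ, ph a n = x := by
    intro x
    have hx : x ∈ Submodule.span ℤ (Set.range a) := by
      have h1 : x ∈ AddSubgroup.closure (Set.range a) := by rw [hgen]; trivial
      rw [← Submodule.span_int_eq_addSubgroupClosure] at h1
      exact h1
    rw [Submodule.mem_span_range_iff_exists_fun] at hx
    exact hx
  obtain ⟨Γ, h1, h2⟩ := main a hgen' L R hR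
  refine ⟨Γ, ?_, ?_⟩
  · rw [hPP, Set.ncard_coe_finset, Nat.card_eq_fintype_card]
    exact h1
  · intro x hx
    obtain ⟨n, hn, hn'⟩ := h2 x fun χ hχ => by
      have := hx χ hχ
      unfold th
      rw [abs_div, abs_of_pos (by have := Real.pi_pos; positivity : (0 : ℝ) < 2 * Real.pi)]
      exact this
    exact ⟨n, hn, hn'.symm⟩

/-- Coset progressions in cyclic groups. -/
theorem part_two (N : ℕ) (hN : 0 < N) (H : AddSubgroup (ZMod N)) (d : ℕ) (a : Fin d → ZMod N) (L : Fin d → ℕ)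
    (R : ℝ) (hR : (d : ℝ) + 4 ≤ R) :
    ∃ Γ : Finset (ZMod N),
      (Γ.card : ℝ) ≤ 36 * d + 80 + 4 * (Real.log ((N : ℝ) / ((cosetProg H a L).ncard : ℝ)) / Real.log R) ∧
      bohr Γ (1 / (8 * R)) ⊆ cosetProg H a L := by
  classical
  haveI : NeZero N := ⟨hN.ne'⟩
  have hfin : (cosetProg H a L).Finite := Set.toFinite _
  obtain ⟨Γ, h1, h2⟩ := cyc H a L R hR hfin.toFinset (fun x => by rw [Set.Finite.mem_toFinset]; rfl)
  refine ⟨Γ, ?_, ?_⟩
  · rw [Set.ncard_eq_toFinset_card _ hfin]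
    exact h1
  · intro x hx
    have := h2 x fun γ hγ => hx γ hγ
    rwa [Set.Finite.mem_toFinset] at this

/-- **Arbitrary progressions.** -/
theorem result :
    -- (1) finite abelian groups: a progression whose steps generate the group
    (∀ (G : Type) [AddCommGroup G] [Finite G] (d : ℕ) (a : Fin d → G) (L : Fin d → ℕ),
      AddSubgroup.closure (Set.range a) = ⊤ → ∀ R : ℝ, (d : ℝ) + 2 ≤ R →
      ∃ Γ : Finset (AddChar G ℂ),
        (Γ.card : ℝ) ≤ 36 * d + 8 + 4 * (Real.log ((Nat.card G : ℝ) / ((progG a L).ncard : ℝ)) / Real.log R) ∧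
        bohrG Γ (1 / (8 * R)) ⊆ progG a L) ∧
    -- (2) cyclic groups: any coset progression
    (∀ (N : ℕ), 0 < N → ∀ (H : AddSubgroup (ZMod N)) (d : ℕ) (a : Fin d → ZMod N) (L : Fin d → ℕ) (R : ℝ),
      (d : ℝ) + 4 ≤ R →
      ∃ Γ : Finset (ZMod N),
        (Γ.card : ℝ) ≤ 36 * d + 80 + 4 * (Real.log ((N : ℝ) / ((cosetProg H a L).ncard : ℝ)) / Real.log R) ∧
        bohr Γ (1 / (8 * R)) ⊆ cosetProg H a L) ∧
    -- (3) Q1 for all `A` such that `2A - 2A` contains a coset progression of dimension at most `C log (1/α)` and of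
    -- density at least `exp (- C log (1/α) log (2 + log (1/α)))`
    (∀ (C : ℝ), 0 < C → ∀ (N : ℕ), 0 < N → ∀ (A : Finset (ZMod N)), A.Nonempty → (A.card : ℝ) / (N : ℝ) ≤ 1 / 2 →
      ∀ (H : AddSubgroup (ZMod N)) (d : ℕ) (a : Fin d → ZMod N) (L : Fin d → ℕ),
      (d : ℝ) ≤ C * Real.log ((N : ℝ) / (A.card : ℝ)) →
      cosetProg H a L ⊆ twoAMinusTwoA A →
      Real.log ((N : ℝ) / ((cosetProg H a L).ncard : ℝ)) ≤
        C * Real.log ((N : ℝ) / (A.card : ℝ)) * Real.log (2 + Real.log ((N : ℝ) / (A.card : ℝ))) →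
      ∃ (Γ : Finset (ZMod N)) (ε : ℝ), 0 < ε ∧
        (Γ.card : ℝ) ≤ (44 * C + 116) * Real.log ((N : ℝ) / (A.card : ℝ)) ∧
        (1 / (8 * (C + 6))) / Real.log ((N : ℝ) / (A.card : ℝ)) ≤ ε ∧
        bohr Γ ε ⊆ twoAMinusTwoA A) := by
  refine ⟨fun G _ _ d a L hgen R hR => part_one G d a L hgen R hR,
    fun N hN H d a L R hR => part_two N hN H d a L R hR, ?_⟩
  intro C hC N hN A hAne hα H d a L hd hsub hdens
  obtain ⟨l, hl⟩ : ∃ l : ℝ, l = Real.log ((N : ℝ) / (A.card : ℝ)) := ⟨_, rfl⟩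
  rw [← hl] at hd hdens ⊢
  have hNpos : (0 : ℝ) < N := by exact_mod_cast hN
  have hApos : (0 : ℝ) < A.card := by exact_mod_cast hAne.card_pos
  have h2 : (2 : ℝ) ≤ (N : ℝ) / (A.card : ℝ) := by
    rw [div_le_iff₀ hNpos] at hα
    rw [le_div_iff₀ hApos]
    linarith
  have hl2 : Real.log 2 ≤ l := by
    rw [hl]
    exact Real.log_le_log (by norm_num) h2
  have hlog2 := Real.log_two_gt_d9
  have hl0 : 0 < l := by linarith
  obtain ⟨R, hR⟩ : ∃ R : ℝ, R = (C + 6) * l := ⟨_, rfl⟩
  have hR6 : 6 * l ≤ R := by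
    rw [hR]; nlinarith
  have hRC : C * l + 4 ≤ R := by
    rw [hR]
    nlinarith
  have hR4 : 4 ≤ R := by nlinarith
  obtain ⟨Γ, hΓ, hΓ'⟩ := part_two N hN H d a L R (by linarith)
  have hlogR : 0 < Real.log R := Real.log_pos (by linarith)
  have hεR : 1 / (8 * (C + 6)) / l ≤ 1 / (8 * R) := by
    rw [hR, div_div]
    apply le_of_eq
    congr 1
    ring
  have hlog : Real.log (2 + l) ≤ 2 * Real.log R := by
    have h3 : 2 + l ≤ R ^ 2 := by nlinarith
    have h4 := Real.log_le_log (by linarith) h3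
    rw [Real.log_pow] at h4
    push_cast at h4
    exact h4
  refine ⟨Γ, 1 / (8 * R), by positivity, ?_, hεR, hΓ'.trans hsub⟩
  have h5 : Real.log ((N : ℝ) / ((cosetProg H a L).ncard : ℝ)) / Real.log R ≤ 2 * (C * l) := by
    rw [div_le_iff₀ hlogR]
    calc Real.log ((N : ℝ) / ((cosetProg H a L).ncard : ℝ)) ≤ C * l * Real.log (2 + l) := hdens
      _ ≤ C * l * (2 * Real.log R) := by
          apply mul_le_mul_of_nonneg_left hlog
          positivity
      _ = 2 * (C * l) * Real.log R := by ring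
  calc (Γ.card : ℝ) ≤ 36 * d + 80 + 4 * (Real.log ((N : ℝ) / ((cosetProg H a L).ncard : ℝ)) / Real.log R) := hΓ
    _ ≤ 36 * (C * l) + 116 * l + 4 * (2 * (C * l)) := by nlinarith
    _ = (44 * C + 116) * l := by ring

end Pool.Agent.Results.MP_169871_nt.ArbitraryProgressions
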