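import Pool.Agent.K4H89.BV.Per
import Pool.Agent.K4H89.BV.Znc

/-!
# Q1 for sets which are dense in a translate of a set of bounded VC-dimension

Let `B` be a subset of a finite abelian group `G` whose translates have VC-dimension at most `k`, and `X ⊆ G` a
nonempty set with `|X + B| ≤ K |B|` (for instance `X = G`, `K = |G|/|B|`, or `X = B` and `K` the doubling of `B`). If
`|A ∩ (t + B)| ≥ δ |B|` then `2A - 2A` contains a Bohr set with `8 D` characters and radius `1/(256 D)`, where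
`D = 2 log (|G|/|X|) + 8 (k+1) log (17 (k+1) K/δ) + 8000 (log (16/δ) + 3)⁴`. Consequently the conclusion of Q1 holds for
every `A ⊆ ℤ/N` of density `α ≤ 1/2` that contains a proportion `exp (- C (log (1/α))^(1/4))` of a translate of a set of
bounded VC-dimension and of density at least `α ^ C`.

Proof. (a) By the theorem of Sauer and Shelah and a random sample, many translates `x + B`, `x ∈ X`, are close to each
other: there is a set `S` of density `(δ/(k K D))^(O(k))` in `X` such that `B` is almost invariant under `S - S`, even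
under a `D`-fold sumset of `S - S` (file `Pac`). (b) Some `j`-fold sumset `T` of (a translate of) `S`, `j ≤ D`, satisfies
`|T + S| ≤ 4 |T|`; `A` is dense in a translate of `T` (files `Cri`, `Per`). (c) Write `A₁ = A ∩ (t + B)`,
`A₂ = A ∩ (y + T)`; most sums `a₁ + a₂` lie in a set of at most `|B|` elements. By the theorem of Croot and Sisask (file
`Cro`, proved by an exponential moment) the function `h(x) = P(a₁ + a₂ + x ∈ A₁ + A₂, …)` is almost invariant under the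
differences of a dense subset `X'` of `S`. (d) By Chang's theorem (file `Cha`, by Riesz products) the large spectrum of
`X'` is controlled by `8 D` characters. (e) A discrete form of Bernstein's inequality (file `Ber`) for the bounded
function `j ↦ h(j x)` shows that `h(x) > 0` in a Bohr set of radius `c/D`; there is no loss depending on `δ` in the
radius.
-/

set_option autoImplicit false

namespace Pool.Agent.Results.MP_169871_nt.BoundedVC

open Pool.Agent.K4H89.BV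
open scoped Pointwise

/-- The Bohr set `B(Γ, ε) = {x ∈ ℤ/N : ‖γ x / N‖ ≤ ε for all γ ∈ Γ}`; the norm is the distance to the nearest
integer. -/
def bohr {N : ℕ} (Γ : Finset (ZMod N)) (ε : ℝ) : Set (ZMod N) :=
  {x | ∀ γ ∈ Γ, |((γ * x).val : ℝ) / (N : ℝ) - ((round (((γ * x).val : ℝ) / (N : ℝ)) : ℤ) : ℝ)| ≤ ε}

/-- The Bohr set of a finite set of characters of an abelian group: all `x` such that the argument of `χ(x)`,
divided by `2π`, is at most `ε` in absolute value for all `χ ∈ Γ`. -/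
def bohrG {G : Type} [AddCommGroup G] (Γ : Finset (AddChar G ℂ)) (ε : ℝ) : Set G :=
  {x | ∀ χ ∈ Γ, |Complex.arg (χ x)| / (2 * Real.pi) ≤ ε}

/-- The set `2A - 2A`. -/
def twoAMinusTwoA {G : Type} [AddCommGroup G] (A : Set G) : Set G :=
  {x | ∃ a₁ ∈ A, ∃ a₂ ∈ A, ∃ a₃ ∈ A, ∃ a₄ ∈ A, x = a₁ + a₂ - a₃ - a₄}

/-- The translates of `B` have VC-dimension at most `k`: a finite set `S` all of whose subsets are cut out by
translates of `B` has at most `k` elements. -/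
def VCAtMost {G : Type} [AddCommGroup G] (B : Set G) (k : ℕ) : Prop :=
  ∀ S : Finset G, (∀ P ⊆ S, ∃ x : G, ∀ s ∈ S, (s ∈ P ↔ s - x ∈ B)) → S.card ≤ k

/-- The sumset `X + B`. -/
def sumset {G : Type} [AddCommGroup G] (X B : Set G) : Set G := {z | ∃ x ∈ X, ∃ b ∈ B, z = x + b}

/-- The part `A ∩ (t + B)` of `A`. -/
def part {G : Type} [AddCommGroup G] (A : Set G) (t : G) (B : Set G) : Set G := {a | a ∈ A ∧ a - t ∈ B}

/-- The quantity `D = 2 u + 8 (k+1) log (17 (k+1) K/δ) + 8000 (log (16/δ) + 3)⁴`. -/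
noncomputable def quant (u : ℝ) (k : ℕ) (K δ : ℝ) : ℝ :=
  2 * u + 8 * (k + 1) * Real.log (17 * (k + 1) * K / δ) + 8000 * (Real.log (16 / δ) + 3) ^ 4

/-- The conclusion of Q1 with constants `C, c` for the set `A ⊆ ℤ/N`, of density `α`: there is a Bohr set
`B(Γ, ε) ⊆ 2A - 2A` with `|Γ| ≤ C log (1/α)` and `ε ≥ c / log (1/α)`. -/
def Conclusion (C c : ℝ) (N : ℕ) (A : Finset (ZMod N)) : Prop :=
  ∃ (Γ : Finset (ZMod N)) (ε : ℝ), (Γ.card : ℝ) ≤ C * Real.log ((N : ℝ) / (A.card : ℝ)) ∧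
    c / Real.log ((N : ℝ) / (A.card : ℝ)) ≤ ε ∧ bohr Γ ε ⊆ twoAMinusTwoA (A : Set (ZMod N))

theorem quant_pos (u : ℝ) (k : ℕ) (K δ : ℝ) (hu : 0 ≤ u) (hK : 1 ≤ K) (hδ : 0 < δ) (hδ1 : δ ≤ 1) :
    0 < quant u k K δ := by
  unfold quant
  have h1 : 0 ≤ Real.log (17 * (k + 1) * K / δ) := by
    apply Real.log_nonneg
    rw [le_div_iff₀ hδ]
    have : (0 : ℝ) ≤ k := Nat.cast_nonneg k
    nlinarith
  have h2 : 0 ≤ Real.log (16 / δ) := by
    apply Real.log_nonneg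
    rw [le_div_iff₀ hδ]
    linarith
  positivity

theorem part_one (G : Type) [AddCommGroup G] [Finite G] (A B X : Set G) (t : G) (k : ℕ) (K δ : ℝ)
    (hB : B.Nonempty) (hX : X.Nonempty) (hδ : 0 < δ) (hδ1 : δ ≤ 1) (hK : 1 ≤ K) (hk : VCAtMost B k)
    (hXB : ((sumset X B).ncard : ℝ) ≤ K * (B.ncard : ℝ)) (hA : δ * (B.ncard : ℝ) ≤ ((part A t B).ncard : ℝ)) :
    ∃ Γ : Finset (AddChar G ℂ),
      (Γ.card : ℝ) ≤ 8 * quant (Real.log ((Nat.card G : ℝ) / (X.ncard : ℝ))) k K δ ∧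
      bohrG Γ (1 / (256 * quant (Real.log ((Nat.card G : ℝ) / (X.ncard : ℝ))) k K δ)) ⊆ twoAMinusTwoA A := by
  classical
  have : Fintype G := Fintype.ofFinite G
  obtain ⟨A', hA'⟩ : ∃ A' : Finset G, A' = (Set.toFinite A).toFinset := ⟨_, rfl⟩
  obtain ⟨B', hB'⟩ : ∃ B' : Finset G, B' = (Set.toFinite B).toFinset := ⟨_, rfl⟩
  obtain ⟨X', hX'⟩ : ∃ X' : Finset G, X' = (Set.toFinite X).toFinset := ⟨_, rfl⟩
  have memA : ∀ x, x ∈ A' ↔ x ∈ A := by intro x; rw [hA', Set.Finite.mem_toFinset]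
  have memB : ∀ x, x ∈ B' ↔ x ∈ B := by intro x; rw [hB', Set.Finite.mem_toFinset]
  have memX : ∀ x, x ∈ X' ↔ x ∈ X := by intro x; rw [hX', Set.Finite.mem_toFinset]
  have cardB : B.ncard = B'.card := by rw [hB', Set.ncard_eq_toFinset_card B (Set.toFinite B)]
  have cardX : X.ncard = X'.card := by rw [hX', Set.ncard_eq_toFinset_card X (Set.toFinite X)]
  have hB'ne : B'.Nonempty := by obtain ⟨x, hx⟩ := hB; exact ⟨x, (memB x).mpr hx⟩
  have hX'ne : X'.Nonempty := by obtain ⟨x, hx⟩ := hX; exact ⟨x, (memX x).mpr hx⟩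
  have hsum : (sumset X B).ncard = (X' + B').card := by
    rw [← Set.ncard_coe_finset]
    congr 1
    ext z
    rw [Finset.mem_coe, Finset.mem_add]
    constructor
    · rintro ⟨x, hx, b, hb, rfl⟩
      exact ⟨x, (memX x).mpr hx, b, (memB b).mpr hb, rfl⟩
    · rintro ⟨x, hx, b, hb, rfl⟩
      exact ⟨x, (memX x).mp hx, b, (memB b).mp hb, rfl⟩
  have hpart : (part A t B).ncard = inn A' B' t := by
    unfold inn
    rw [← Set.ncard_coe_finset]
    congr 1
    ext z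
    rw [Finset.mem_coe, Finset.mem_filter, memA, memB]
    rfl
  rw [hsum, cardB] at hXB
  rw [hpart, cardB] at hA
  obtain ⟨Λ, h1, h2⟩ := vc_main A' B' X' t δ K hδ hδ1 hK hB'ne hX'ne hXB k (by
    intro S hS
    apply hk S
    intro P hP
    obtain ⟨x, hx⟩ := hS P hP
    exact ⟨x, fun s hs => by rw [hx s hs, memB]⟩) hA
  refine ⟨Λ, ?_, fun x hx => ?_⟩
  · rw [cardX, Nat.card_eq_fintype_card]
    exact h1
  · rw [cardX, Nat.card_eq_fintype_card] at hx
    obtain ⟨a₁, h3, a₂, h4, a₃, h5, a₄, h6, h7⟩ := h2 x (by rw [mem_TT]; exact hx)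
    exact ⟨a₁, (memA _).mp h3, a₂, (memA _).mp h4, a₃, (memA _).mp h5, a₄, (memA _).mp h6, h7⟩

theorem part_two (C : ℝ) (hC : 0 < C) (N : ℕ) (hN : 1 ≤ N) (A : Finset (ZMod N)) (hAne : A.Nonempty)
    (hα : (A.card : ℝ) / (N : ℝ) ≤ 1 / 2) (B X : Set (ZMod N)) (t : ZMod N) (k : ℕ) (K δ : ℝ)
    (hB : B.Nonempty) (hX : X.Nonempty) (hδ : 0 < δ) (hδ1 : δ ≤ 1) (hK : 1 ≤ K) (hk : VCAtMost B k)
    (hXB : ((sumset X B).ncard : ℝ) ≤ K * (B.ncard : ℝ))
    (hA : δ * (B.ncard : ℝ) ≤ ((part (A : Set (ZMod N)) t B).ncard : ℝ))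
    (h1 : Real.log ((N : ℝ) / (X.ncard : ℝ)) ≤ C * Real.log ((N : ℝ) / (A.card : ℝ)))
    (h2 : (k + 1) * Real.log (17 * (k + 1) * K / δ) ≤ C * Real.log ((N : ℝ) / (A.card : ℝ)))
    (h3 : Real.log (1 / δ) ≤ C * Real.log ((N : ℝ) / (A.card : ℝ)) ^ (1 / 4 : ℝ)) :
    Conclusion (8 * (10 * C + 8000 * (C + 7) ^ 4)) (1 / (256 * (10 * C + 8000 * (C + 7) ^ 4))) N A := by
  classical
  have : NeZero N := ⟨by omega⟩
  obtain ⟨l, hl⟩ : ∃ l : ℝ, l = Real.log ((N : ℝ) / (A.card : ℝ)) := ⟨_, rfl⟩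
  unfold Conclusion
  rw [← hl] at h1 h2 h3 ⊢
  have hNpos : (0 : ℝ) < N := by exact_mod_cast (by omega : 0 < N)
  have hApos : (0 : ℝ) < A.card := by exact_mod_cast hAne.card_pos
  have h22 : (2 : ℝ) ≤ (N : ℝ) / (A.card : ℝ) := by
    rw [div_le_iff₀ hNpos] at hα
    rw [le_div_iff₀ hApos]
    linarith
  have hl2 : Real.log 2 ≤ l := by
    rw [hl]
    exact Real.log_le_log (by norm_num) h22
  have hlog2 := Real.log_two_gt_d9
  have hlog2' := Real.log_two_lt_d9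
  have hl0 : 0 < l := by linarith
  have hXpos : (0 : ℝ) < X.ncard := by
    have : 0 < X.ncard := (Set.ncard_pos (Set.toFinite X)).mpr hX
    exact_mod_cast this
  have hu : 0 ≤ Real.log ((N : ℝ) / (X.ncard : ℝ)) := by
    apply Real.log_nonneg
    rw [le_div_iff₀ hXpos, one_mul]
    have h5 : X.ncard ≤ Nat.card (ZMod N) := by
      rw [← Set.ncard_univ]
      exact Set.ncard_le_ncard (Set.subset_univ X) (Set.toFinite _)
    rw [Nat.card_zmod] at h5
    exact_mod_cast h5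
  obtain ⟨Λ, h4, h5⟩ := part_one (ZMod N) (A : Set (ZMod N)) B X t k K δ hB hX hδ hδ1 hK hk hXB hA
  rw [Nat.card_zmod] at h4 h5
  have hpos := quant_pos (Real.log ((N : ℝ) / (X.ncard : ℝ))) k K δ hu hK hδ hδ1
  have hlog16 : Real.log (16 / δ) = 4 * Real.log 2 + Real.log (1 / δ) := by
    rw [show (16 : ℝ) / δ = 2 ^ 4 * (1 / δ) by ring, Real.log_mul (by norm_num) (by positivity), Real.log_pow]
    norm_num
  have hlog16pos : 0 ≤ Real.log (16 / δ) := by
    apply Real.log_nonneg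
    rw [le_div_iff₀ hδ]
    linarith
  have hfourth : (Real.log (16 / δ) + 3) ^ 4 ≤ (C + 7) ^ 4 * l := by
    apply fourth (Real.log (16 / δ) + 3) C 5.78 (C + 7) l (by linarith) (by norm_num) hl2
    · rw [hlog16]
      linarith
    · norm_num
  have hquant : quant (Real.log ((N : ℝ) / (X.ncard : ℝ))) k K δ ≤ (10 * C + 8000 * (C + 7) ^ 4) * l := by
    unfold quant
    nlinarith
  obtain ⟨Γ, ε, h6, h7, h8⟩ := q1_wrap (twoAMinusTwoA (A : Set (ZMod N))) _ l _ hpos hquant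
    ⟨Λ, h4, fun x hx => h5 (by rw [mem_TT] at hx; exact hx)⟩
  exact ⟨Γ, ε, h6, h7, fun x hx => h8 x hx⟩

theorem part_three (k : ℕ) (C : ℝ) (hC : 0 < C) : ∃ C₁ : ℝ, 0 < C₁ ∧ ∀ N : ℕ, 1 ≤ N → ∀ A : Finset (ZMod N),
    A.Nonempty → (A.card : ℝ) / (N : ℝ) ≤ 1 / 2 → ∀ (B : Set (ZMod N)) (t : ZMod N), B.Nonempty → VCAtMost B k →
    Real.log ((N : ℝ) / (B.ncard : ℝ)) ≤ C * Real.log ((N : ℝ) / (A.card : ℝ)) →
    Real.exp (-(C * Real.log ((N : ℝ) / (A.card : ℝ)) ^ (1 / 4 : ℝ))) * (B.ncard : ℝ) ≤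
      ((part (A : Set (ZMod N)) t B).ncard : ℝ) →
    Conclusion C₁ (1 / C₁) N A := by
  obtain ⟨C', hC'⟩ : ∃ C' : ℝ, C' = (k + 1) * (2 * Real.log (17 * (k + 1)) + 3 * C) + C := ⟨_, rfl⟩
  have hk0 : (0 : ℝ) ≤ k := Nat.cast_nonneg k
  have hlog17 : 0 ≤ Real.log (17 * ((k : ℝ) + 1)) := Real.log_nonneg (by linarith)
  have hC'0 : 0 < C' := by rw [hC']; positivity
  refine ⟨256 * (10 * C' + 8000 * (C' + 7) ^ 4), by positivity, ?_⟩
  intro N hN A hAne hα B t hB hk hBc hA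
  have : NeZero N := ⟨by omega⟩
  have hNpos : (0 : ℝ) < N := by exact_mod_cast (by omega : 0 < N)
  have hApos : (0 : ℝ) < A.card := by exact_mod_cast hAne.card_pos
  have h22 : (2 : ℝ) ≤ (N : ℝ) / (A.card : ℝ) := by
    rw [div_le_iff₀ hNpos] at hα
    rw [le_div_iff₀ hApos]
    linarith
  have hl2 : Real.log 2 ≤ Real.log ((N : ℝ) / (A.card : ℝ)) := Real.log_le_log (by norm_num) h22
  have hlog2 := Real.log_two_gt_d9
  have hl0 : 0 < Real.log ((N : ℝ) / (A.card : ℝ)) := by linarith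
  have hBpos : (0 : ℝ) < B.ncard := by
    have : 0 < B.ncard := (Set.ncard_pos (Set.toFinite B)).mpr hB
    exact_mod_cast this
  have hBN : (B.ncard : ℝ) ≤ N := by
    have h5 : B.ncard ≤ Nat.card (ZMod N) := by
      rw [← Set.ncard_univ]
      exact Set.ncard_le_ncard (Set.subset_univ B) (Set.toFinite _)
    rw [Nat.card_zmod] at h5
    exact_mod_cast h5
  have hq0 : 0 ≤ Real.log ((N : ℝ) / (A.card : ℝ)) ^ (1 / 4 : ℝ) := Real.rpow_nonneg hl0.le _
  have h := part_two C' hC'0 N hN A hAne hα B Set.univ t k ((N : ℝ) / (B.ncard : ℝ))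
    (Real.exp (-(C * Real.log ((N : ℝ) / (A.card : ℝ)) ^ (1 / 4 : ℝ)))) hB Set.univ_nonempty (Real.exp_pos _) (by
      rw [Real.exp_le_one_iff]
      have := mul_nonneg hC.le hq0
      linarith) (by rw [le_div_iff₀ hBpos]; linarith) hk (by
      rw [div_mul_cancel₀ _ hBpos.ne']
      have h5 : (sumset Set.univ B).ncard ≤ Nat.card (ZMod N) := by
        rw [← Set.ncard_univ]
        exact Set.ncard_le_ncard (Set.subset_univ _) (Set.toFinite _)
      rw [Nat.card_zmod] at h5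
      exact_mod_cast h5) hA (by
      rw [Set.ncard_univ, Nat.card_zmod, div_self hNpos.ne', Real.log_one]
      positivity) (by
      have e1 : 17 * ((k : ℝ) + 1) * ((N : ℝ) / (B.ncard : ℝ)) /
          Real.exp (-(C * Real.log ((N : ℝ) / (A.card : ℝ)) ^ (1 / 4 : ℝ))) =
          (17 * ((k : ℝ) + 1)) * ((N : ℝ) / (B.ncard : ℝ)) *
            Real.exp (C * Real.log ((N : ℝ) / (A.card : ℝ)) ^ (1 / 4 : ℝ)) := by
        rw [Real.exp_neg]
        field_simp
      rw [e1, Real.log_mul (by positivity) (Real.exp_pos _).ne', Real.log_mul (by positivity) (by positivity),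
        Real.log_exp]
      have e2 := rpow_quarter_le _ hl2
      have e3 : Real.log (17 * ((k : ℝ) + 1)) ≤ 2 * Real.log (17 * ((k : ℝ) + 1)) * Real.log ((N : ℝ) / (A.card : ℝ)) := by
        nlinarith
      have e4 : Real.log (17 * ((k : ℝ) + 1)) + Real.log ((N : ℝ) / (B.ncard : ℝ)) +
          C * Real.log ((N : ℝ) / (A.card : ℝ)) ^ (1 / 4 : ℝ) ≤
          (2 * Real.log (17 * (k + 1)) + 3 * C) * Real.log ((N : ℝ) / (A.card : ℝ)) := by
        nlinarith
      calc ((k : ℝ) + 1) * (Real.log (17 * ((k : ℝ) + 1)) + Real.log ((N : ℝ) / (B.ncard : ℝ)) +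
          C * Real.log ((N : ℝ) / (A.card : ℝ)) ^ (1 / 4 : ℝ))
          ≤ (k + 1) * ((2 * Real.log (17 * (k + 1)) + 3 * C) * Real.log ((N : ℝ) / (A.card : ℝ))) := by gcongr
        _ ≤ C' * Real.log ((N : ℝ) / (A.card : ℝ)) := by
            rw [hC']
            nlinarith) (by
      rw [one_div, ← Real.exp_neg, neg_neg, Real.log_exp]
      apply mul_le_mul_of_nonneg_right _ hq0
      rw [hC']
      have : 0 ≤ ((k : ℝ) + 1) * (2 * Real.log (17 * (k + 1)) + 3 * C) := by positivity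
      linarith)
  obtain ⟨Γ, ε, h6, h7, h8⟩ := h
  refine ⟨Γ, ε, h6.trans ?_, h7, h8⟩
  apply mul_le_mul_of_nonneg_right _ hl0.le
  have : 0 < 10 * C' + 8000 * (C' + 7) ^ 4 := by positivity
  linarith

/-- **Q1 for dense subsets of translates of sets of bounded VC-dimension.** -/
theorem result :
    -- (1) all finite abelian groups, explicit bounds
    (∀ (G : Type) [AddCommGroup G] [Finite G] (A B X : Set G) (t : G) (k : ℕ) (K δ : ℝ),
      B.Nonempty → X.Nonempty → 0 < δ → δ ≤ 1 → 1 ≤ K → VCAtMost B k →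
      ((sumset X B).ncard : ℝ) ≤ K * (B.ncard : ℝ) → δ * (B.ncard : ℝ) ≤ ((part A t B).ncard : ℝ) →
      ∃ Γ : Finset (AddChar G ℂ),
        (Γ.card : ℝ) ≤ 8 * quant (Real.log ((Nat.card G : ℝ) / (X.ncard : ℝ))) k K δ ∧
        bohrG Γ (1 / (256 * quant (Real.log ((Nat.card G : ℝ) / (X.ncard : ℝ))) k K δ)) ⊆ twoAMinusTwoA A) ∧
    -- (2) Q1, if `X` has density at least `α ^ C`, `(k + 1) log (17 (k + 1) K/δ) ≤ C log (1/α)` and
    -- `δ ≥ exp (- C (log (1/α)) ^ (1/4))`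
    (∀ C : ℝ, 0 < C → ∀ N : ℕ, 1 ≤ N → ∀ A : Finset (ZMod N), A.Nonempty → (A.card : ℝ) / (N : ℝ) ≤ 1 / 2 →
      ∀ (B X : Set (ZMod N)) (t : ZMod N) (k : ℕ) (K δ : ℝ),
      B.Nonempty → X.Nonempty → 0 < δ → δ ≤ 1 → 1 ≤ K → VCAtMost B k →
      ((sumset X B).ncard : ℝ) ≤ K * (B.ncard : ℝ) →
      δ * (B.ncard : ℝ) ≤ ((part (A : Set (ZMod N)) t B).ncard : ℝ) →
      Real.log ((N : ℝ) / (X.ncard : ℝ)) ≤ C * Real.log ((N : ℝ) / (A.card : ℝ)) →
      (k + 1) * Real.log (17 * (k + 1) * K / δ) ≤ C * Real.log ((N : ℝ) / (A.card : ℝ)) →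
      Real.log (1 / δ) ≤ C * Real.log ((N : ℝ) / (A.card : ℝ)) ^ (1 / 4 : ℝ) →
      Conclusion (8 * (10 * C + 8000 * (C + 7) ^ 4)) (1 / (256 * (10 * C + 8000 * (C + 7) ^ 4))) N A) ∧
    -- (3) Q1 for bounded VC-dimension: `B` has density at least `α ^ C` and `A` contains a proportion at least
    -- `exp (- C (log (1/α)) ^ (1/4))` of a translate of `B`
    (∀ (k : ℕ) (C : ℝ), 0 < C → ∃ C₁ : ℝ, 0 < C₁ ∧ ∀ N : ℕ, 1 ≤ N → ∀ A : Finset (ZMod N),
      A.Nonempty → (A.card : ℝ) / (N : ℝ) ≤ 1 / 2 → ∀ (B : Set (ZMod N)) (t : ZMod N), B.Nonempty → VCAtMost B k →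
      Real.log ((N : ℝ) / (B.ncard : ℝ)) ≤ C * Real.log ((N : ℝ) / (A.card : ℝ)) →
      Real.exp (-(C * Real.log ((N : ℝ) / (A.card : ℝ)) ^ (1 / 4 : ℝ))) * (B.ncard : ℝ) ≤
        ((part (A : Set (ZMod N)) t B).ncard : ℝ) →
      Conclusion C₁ (1 / C₁) N A) :=
  ⟨fun G _ _ A B X t k K δ => part_one G A B X t k K δ,
    fun C hC N hN A hA hα B X t k K δ => part_two C hC N hN A hA hα B X t k K δ,
    fun k C hC => part_three k C hC⟩

end Pool.Agent.Results.MP_169871_nt.BoundedVC
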