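import Pool.Agent.K4H75.BP.Lift

/-!
# Q1 for some moduli implies Q1 for all moduli, and for all finite abelian groups of bounded rank

Let `𝓜` be any infinite set of moduli, for instance a sparse set of primes. If the conclusion of Q1 holds, with some
constants, for the moduli in `𝓜`, then it holds for all moduli; it even holds in all finite abelian groups: if `G` is
generated by `r` elements and `A ⊆ G` has density `α` then `2A - 2A` contains a Bohr set with `O(1 + r + log (1/α))`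
characters and radius at least `c / (1 + r + log (1/α))`. So these statements are equivalent, and there is a
dichotomy: either Q1 is true or, for all constants `C, c`, it fails for every sufficiently large modulus.

Proof. Let `M ∈ 𝓜` be large. The set `{x ∈ [0, K)^r : ∑ x_i g_i ∈ A + s}` is mapped to `ℤ/M` with digits in base `8 K`;
for a suitable `s` its density is at least `α / 16^r`. Q1 in `ℤ/M` gives `D` frequencies `γ`, such that `∑ x_i g_i` is
in `2A - 2A` if `|x_i| ≤ 2 K` and `‖γ ∑ x_i (8 K)^i / M‖ ≤ ε` for all `γ`. These points are the intersection of `G × 0`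
with a progression (not proper) of dimension `r + D` in `G × (ℤ/M)^D`, whose density does not depend on `M`; by the
theorem of the sibling file `ArbitraryProgressions` it contains a Bohr set, which is restricted to `G × 0`.
-/

set_option autoImplicit false

namespace Pool.Agent.Results.MP_169871_nt.SomeModuliSuffice

open Pool.Agent.K4H75.BP (fr ee_fr th th_le_nint transfer)

/-- The Bohr set `B(Γ, ε) = {x ∈ ℤ/N : ‖γ x / N‖ ≤ ε for all γ ∈ Γ}`; the norm is the distance to the nearest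
integer. -/
def bohr {N : ℕ} (Γ : Finset (ZMod N)) (ε : ℝ) : Set (ZMod N) :=
  {x | ∀ γ ∈ Γ, |((γ * x).val : ℝ) / (N : ℝ) - ((round (((γ * x).val : ℝ) / (N : ℝ)) : ℤ) : ℝ)| ≤ ε}

/-- The set `2A - 2A` in an abelian group. -/
def twoAMinusTwoA {G : Type} [AddCommGroup G] (A : Set G) : Set G :=
  {x | ∃ a₁ ∈ A, ∃ a₂ ∈ A, ∃ a₃ ∈ A, ∃ a₄ ∈ A, x = a₁ + a₂ - a₃ - a₄}

/-- The Bohr set of a finite set of characters of an abelian group: all `x` such that the argument of `χ(x)`,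
divided by `2π`, is at most `ε` in absolute value for all `χ ∈ Γ`. -/
def bohrG {G : Type} [AddCommGroup G] (Γ : Finset (AddChar G ℂ)) (ε : ℝ) : Set G :=
  {x | ∀ χ ∈ Γ, |Complex.arg (χ x)| / (2 * Real.pi) ≤ ε}

/-- The conclusion of Q1 with constants `C, c` for the set `A ⊆ ℤ/N`, of density `α`: there is a Bohr set
`B(Γ, ε) ⊆ 2A - 2A` with `|Γ| ≤ C log (1/α)` and `ε ≥ c / log (1/α)`. -/
def Conclusion (C c : ℝ) (N : ℕ) (A : Finset (ZMod N)) : Prop :=
  ∃ (Γ : Finset (ZMod N)) (ε : ℝ), (Γ.card : ℝ) ≤ C * Real.log ((N : ℝ) / (A.card : ℝ)) ∧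
    c / Real.log ((N : ℝ) / (A.card : ℝ)) ≤ ε ∧ bohr Γ ε ⊆ twoAMinusTwoA (A : Set (ZMod N))

/-- Q1 for the moduli in `𝓜`: there are constants `C, c > 0` such that the conclusion holds for all `N ∈ 𝓜`, `N ≥ 1`,
and all nonempty `A ⊆ ℤ/N` of density at most `1/2`. -/
def Q1On (𝓜 : Set ℕ) : Prop :=
  ∃ C c : ℝ, 0 < C ∧ 0 < c ∧ ∀ N ∈ 𝓜, 1 ≤ N → ∀ A : Finset (ZMod N), A.Nonempty →
    (A.card : ℝ) / (N : ℝ) ≤ 1 / 2 → Conclusion C c N A

/-- The version for all finite abelian groups: if `G` is generated by `r` elements and `A ⊆ G` is nonempty of density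
`α` then `2A - 2A` contains a Bohr set with at most `C (1 + r + log (1/α))` characters and radius
`c / (1 + r + log (1/α))`. -/
def GroupVersion : Prop :=
  ∃ C c : ℝ, 0 < C ∧ 0 < c ∧ ∀ (G : Type) [AddCommGroup G] [Finite G] (r : ℕ) (g : Fin r → G),
    AddSubgroup.closure (Set.range g) = ⊤ → ∀ A : Set G, A.Nonempty →
    ∃ Γ : Finset (AddChar G ℂ),
      (Γ.card : ℝ) ≤ C * (1 + r + Real.log ((Nat.card G : ℝ) / (A.ncard : ℝ))) ∧
      bohrG Γ (c / (1 + r + Real.log ((Nat.card G : ℝ) / (A.ncard : ℝ)))) ⊆ twoAMinusTwoA A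

theorem group_of_on (𝓜 : Set ℕ) (h𝓜 : 𝓜.Infinite) (h : Q1On 𝓜) : GroupVersion := by
  classical
  obtain ⟨C, c, hC, hc, hQ⟩ := h
  refine ⟨44 + 160 * C, 1 / (8 * (11 + 4 * C + 8 / c)), by positivity, by positivity, ?_⟩
  intro G _ _ r g hg A hA
  have : Fintype G := Fintype.ofFinite G
  obtain ⟨A', hA'⟩ : ∃ A' : Finset G, A' = (Set.toFinite A).toFinset := ⟨_, rfl⟩
  have memA : ∀ x, x ∈ A' ↔ x ∈ A := by
    intro x; rw [hA', Set.Finite.mem_toFinset]
  have hcard : A.ncard = A'.card := by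
    rw [hA', Set.ncard_eq_toFinset_card A (Set.toFinite A)]
  have hA'ne : A'.Nonempty := by
    obtain ⟨x, hx⟩ := hA
    exact ⟨x, (memA x).mpr hx⟩
  obtain ⟨M, hM𝓜, hM⟩ := h𝓜.exists_gt ((8 * (Fintype.card G + 1)) ^ (r + 1))
  obtain ⟨Γ, R, hR0, hΓ, hR, hres⟩ := transfer (n := r + 1) (by omega) (Fin.cons 0 g : Fin (r + 1) → G) (by
    intro x
    have hx : x ∈ Submodule.span ℤ (Set.range g) := by
      have h1 : x ∈ AddSubgroup.closure (Set.range g) := by rw [hg]; trivial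
      rw [← Submodule.span_int_eq_addSubgroupClosure] at h1
      exact h1
    rw [Submodule.mem_span_range_iff_exists_fun] at hx
    obtain ⟨m, hm⟩ := hx
    refine ⟨Fin.cons 0 m, ?_⟩
    rw [Fin.sum_univ_succ]
    simp only [Fin.cons_zero, Fin.cons_succ, smul_zero, zero_add]
    exact hm) A' hA'ne C c hC hc M hM.le (by
    intro B hB hBd
    obtain ⟨Γ, ε, h1, h2, h3⟩ := hQ M hM𝓜 (by omega) B hB hBd
    exact ⟨Γ, ε, h1, h2, fun x hx => h3 hx⟩)
  rw [hcard, Nat.card_eq_fintype_card]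
  have hApos : (0 : ℝ) < A'.card := by exact_mod_cast hA'ne.card_pos
  have hlA : 0 ≤ Real.log ((Fintype.card G : ℝ) / A'.card) := by
    apply Real.log_nonneg
    rw [le_div_iff₀ hApos, one_mul]
    exact_mod_cast Finset.card_le_univ A'
  obtain ⟨T, hT⟩ : ∃ T : ℝ, T = 1 + r + Real.log ((Fintype.card G : ℝ) / A'.card) := ⟨_, rfl⟩
  have hT' : ((r + 1 : ℕ) : ℝ) + Real.log ((Fintype.card G : ℝ) / A'.card) = T := by
    rw [hT]; push_cast; ring
  rw [hT'] at hΓ hR
  have hT0 : 0 < T := by rw [hT]; positivity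
  rw [← hT]
  refine ⟨Γ, hΓ, ?_⟩
  intro x hx
  obtain ⟨a1, h1, a2, h2, a3, h3, a4, h4, he⟩ := hres x fun χ hχ => by
    have h5 := hx χ hχ
    unfold th
    rw [abs_div, abs_of_pos (by have := Real.pi_pos; positivity : (0 : ℝ) < 2 * Real.pi)]
    refine h5.trans ?_
    rw [div_div]
    apply one_div_le_one_div_of_le (by positivity)
    have : 8 * R ≤ 8 * ((11 + 4 * C + 8 / c) * T) := by linarith
    linarith
  exact ⟨a1, (memA _).mp h1, a2, (memA _).mp h2, a3, (memA _).mp h3, a4, (memA _).mp h4, he⟩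

theorem on_of_group (h : GroupVersion) : Q1On Set.univ := by
  classical
  obtain ⟨C, c, hC, hc, hG⟩ := h
  refine ⟨4 * C, c / 4, by positivity, by positivity, ?_⟩
  intro N _ hN A hA hAd
  have : NeZero N := ⟨by omega⟩
  obtain ⟨Γ, hΓ, hsub⟩ := hG (ZMod N) 1 (fun _ => 1) (by
    rw [eq_top_iff]
    intro x _
    have h1 : (1 : ZMod N) ∈ AddSubgroup.closure (Set.range (fun _ : Fin 1 => (1 : ZMod N))) :=
      AddSubgroup.subset_closure ⟨0, rfl⟩
    have h2 := AddSubgroup.nsmul_mem _ h1 x.val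
    rw [nsmul_eq_mul, mul_one, ZMod.natCast_zmod_val] at h2
    exact h2) (A : Set (ZMod N)) (by exact_mod_cast hA)
  rw [Set.ncard_coe_finset, Nat.card_eq_fintype_card, ZMod.card] at hΓ hsub
  have hNpos : (0 : ℝ) < N := by exact_mod_cast (by omega : 0 < N)
  have hApos : (0 : ℝ) < A.card := by exact_mod_cast hA.card_pos
  obtain ⟨l, hl⟩ : ∃ l : ℝ, l = Real.log ((N : ℝ) / (A.card : ℝ)) := ⟨_, rfl⟩
  have h2 : (2 : ℝ) ≤ (N : ℝ) / (A.card : ℝ) := by
    rw [div_le_iff₀ hNpos] at hAd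
    rw [le_div_iff₀ hApos]
    linarith
  have hl2 : Real.log 2 ≤ l := by
    rw [hl]
    exact Real.log_le_log (by norm_num) h2
  have hlog2 := Real.log_two_gt_d9
  rw [← hl] at hΓ hsub
  have hT : 1 + ((1 : ℕ) : ℝ) + l ≤ 4 * l := by
    push_cast
    linarith
  have hT0 : 0 < 1 + ((1 : ℕ) : ℝ) + l := by
    push_cast
    linarith
  refine ⟨Γ.image fr, c / (1 + ((1 : ℕ) : ℝ) + l), ?_, ?_, ?_⟩
  · rw [← hl]
    have h3 : ((Γ.image fr).card : ℝ) ≤ Γ.card := by exact_mod_cast Finset.card_image_le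
    have h4 : C * (1 + ((1 : ℕ) : ℝ) + l) ≤ C * (4 * l) := mul_le_mul_of_nonneg_left hT hC.le
    linarith
  · rw [← hl]
    rw [div_div, div_le_div_iff₀ (by linarith) hT0]
    exact mul_le_mul_of_nonneg_left hT hc.le
  · intro x hx
    apply hsub
    intro χ hχ
    have h3 := hx (fr χ) (Finset.mem_image_of_mem _ hχ)
    have h4 := th_le_nint χ x _ (ee_fr χ x)
    unfold th at h4
    rw [abs_div, abs_of_pos (by have := Real.pi_pos; positivity : (0 : ℝ) < 2 * Real.pi)] at h4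
    exact h4.trans h3

/-- **Some moduli suffice.** -/
theorem result :
    -- (1) for every infinite set `𝓜` of moduli: Q1 for the moduli in `𝓜` is equivalent to Q1
    (∀ 𝓜 : Set ℕ, 𝓜.Infinite → (Q1On 𝓜 ↔ Q1On Set.univ)) ∧
    -- (2) Q1 is equivalent to the version for all finite abelian groups
    (Q1On Set.univ ↔ GroupVersion) ∧
    -- (3) if Q1 fails then for all `C, c > 0` the conclusion fails in `ℤ/N` for every sufficiently large `N`
    (¬ Q1On Set.univ → ∀ C c : ℝ, 0 < C → 0 < c → ∃ N₀ : ℕ, ∀ N : ℕ, N₀ ≤ N →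
      ∃ A : Finset (ZMod N), A.Nonempty ∧ (A.card : ℝ) / (N : ℝ) ≤ 1 / 2 ∧ ¬ Conclusion C c N A) := by
  have h1 : ∀ 𝓜 : Set ℕ, 𝓜.Infinite → (Q1On 𝓜 ↔ Q1On Set.univ) := by
    intro 𝓜 h𝓜
    refine ⟨fun h => on_of_group (group_of_on 𝓜 h𝓜 h), ?_⟩
    rintro ⟨C, c, hC, hc, h⟩
    exact ⟨C, c, hC, hc, fun N _ => h N (Set.mem_univ N)⟩
  refine ⟨h1, ⟨group_of_on _ Set.infinite_univ, on_of_group⟩, ?_⟩
  intro hno C c hC hc
  by_contra hcon
  push Not at hcon
  apply hno
  rw [← h1 {N | ∀ A : Finset (ZMod N), A.Nonempty → (A.card : ℝ) / (N : ℝ) ≤ 1 / 2 → Conclusion C c N A}]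
  · exact ⟨C, c, hC, hc, fun N hN _ => hN⟩
  · rw [Set.infinite_iff_exists_gt]
    intro N₀
    obtain ⟨N, hN, h⟩ := hcon (N₀ + 1)
    exact ⟨N, h, by omega⟩

end Pool.Agent.Results.MP_169871_nt.SomeModuliSuffice
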